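import Pool.Agent.V5helper23.PF.Stm

/-! # PROJECT PF, job ENY: the energy of the parallel flow, y-derivative -/

set_option autoImplicit false
set_option linter.all false

open MeasureTheory Set Real Filter Topology intervalIntegral
open scoped ENNReal NNReal

namespace Pool.Agent.V5helper6.PF

open Pool.Agent.Y308.BC Pool.Agent.V5helper93.NS Pool.Agent.V5helper23.PF

lemma ec_orth (m n : ℕ) : ∫ x in (0:ℝ)..1, ec m x * ec n x = if m = n then 1 else 0 := by
  have := ecf_orth (m + 1) (n + 1)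
  simp only [ecf_succ] at this
  rw [this]; simp

lemma cos_fin (g : ℕ → ℝ) (J : ℕ) :
    ∫ x in (0:ℝ)..1, (∑ k ∈ Finset.range J, g k * ec k x) ^ 2 = ∑ k ∈ Finset.range J, g k ^ 2 := by
  have : ∀ x, (∑ k ∈ Finset.range J, g k * ec k x) ^ 2 =
      ∑ n ∈ Finset.range J, ∑ m ∈ Finset.range J, (g n * g m) * (ec n x * ec m x) := by
    intro x
    rw [pow_two, Finset.sum_mul_sum]
    refine Finset.sum_congr rfl fun n _ => Finset.sum_congr rfl fun m _ => by ring
  simp_rw [this]
  have hm : ∀ n, MemLp (ec n) 2 mu := fun n => memLp_cont (ec_cont n).continuousOn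
  rw [intervalIntegral.integral_finsetSum]
  · refine Finset.sum_congr rfl fun n hn => ?_
    rw [intervalIntegral.integral_finsetSum]
    · simp_rw [intervalIntegral.integral_const_mul, ec_orth]
      rw [Finset.sum_eq_single n]
      · rw [if_pos rfl]; ring
      · intro m _ hmn; rw [if_neg (Ne.symm hmn), mul_zero]
      · intro h; exact absurd hn h
    · intro m _; exact (ii_of_mem (hm n) (hm m)).const_mul _
  · intro n _
    apply Continuous.intervalIntegrable
    exact continuous_finsetSum _ fun m _ => (((ec_cont n).mul (ec_cont m)).const_mul _)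

lemma cos_fin_l (g : ℕ → ℝ) (J : ℕ) :
    ∫⁻ y in Ioo (0:ℝ) 1, ENNReal.ofReal ((∑ k ∈ Finset.range J, g k * ec k y) ^ 2) =
      ∑ k ∈ Finset.range J, ENNReal.ofReal (g k ^ 2) := by
  have hc : Continuous fun y => (∑ k ∈ Finset.range J, g k * ec k y) ^ 2 := by
    refine Continuous.pow ?_ 2
    exact continuous_finsetSum _ fun k _ => (ec_cont k).const_mul _
  rw [← ofReal_integral_eq_lintegral_ofReal, ioo_int, cos_fin,
    ENNReal.ofReal_sum_of_nonneg fun _ _ => sq_nonneg _]
  · exact (hc.continuousOn.integrableOn_compact isCompact_Icc).mono_set Ioo_subset_Icc_self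
  · exact Eventually.of_forall fun y => sq_nonneg _

/-- Bessel inequality for a cosine series (Fatou) -/
lemma cos_le (g : ℕ → ℝ) :
    ∫⁻ y in Ioo (0:ℝ) 1, ENNReal.ofReal ((∑' k, g k * ec k y) ^ 2) ≤
      ∑' k, ENNReal.ofReal (g k ^ 2) := by
  have h1 : ∀ y, ENNReal.ofReal ((∑' k, g k * ec k y) ^ 2) ≤
      liminf (fun J : ℕ => ENNReal.ofReal ((∑ k ∈ Finset.range J, g k * ec k y) ^ 2)) atTop := by
    intro y
    by_cases hs : Summable fun k => g k * ec k y
    · have ht := hs.hasSum.tendsto_sum_nat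
      have ht2 := (ENNReal.continuous_ofReal.tendsto _).comp (ht.pow 2)
      exact ht2.liminf_eq.ge
    · rw [tsum_eq_zero_of_not_summable hs]; simp
  refine (lintegral_mono fun y => h1 y).trans ?_
  refine (lintegral_liminf_le fun J => ?_).trans ?_
  · apply ENNReal.measurable_ofReal.comp
    have hc : Continuous fun y => (∑ k ∈ Finset.range J, g k * ec k y) ^ 2 := by
      refine Continuous.pow ?_ 2
      exact continuous_finsetSum _ fun k _ => (ec_cont k).const_mul _
    exact hc.measurable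
  · simp_rw [cos_fin_l]
    refine (liminf_le_liminf (v := fun _ => ∑' k, ENNReal.ofReal (g k ^ 2))
      (Eventually.of_forall fun J => ENNReal.sum_le_tsum _)).trans ?_
    simp

lemma t_int (l b I τ : ℝ) (hb : 0 < b) (hI : 0 ≤ I) (hτ : 0 ≤ τ) :
    ∫ t in (0:ℝ)..τ, l * Real.exp (-l * (b * t)) ^ 2 * I ≤ I / b := by
  have h := g_int (l * b) 1 τ hτ
  have e : ∀ t, l * Real.exp (-l * (b * t)) ^ 2 * I =
      (I / b) * ((l * b) * (Real.exp (-(l * b) * t) * 1) ^ 2) := by
    intro t
    rw [mul_one, show -(l * b) * t = -l * (b * t) by ring]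
    field_simp
  simp_rw [e]
  rw [intervalIntegral.integral_const_mul]
  have hIb : 0 ≤ I / b := div_nonneg hI hb.le
  calc I / b * _ ≤ I / b * 1 ^ 2 := mul_le_mul_of_nonneg_left h hIb
    _ = I / b := by ring

theorem t_ENY (h1 : S_COE) (h2 : S_BND) (h3 : S_CON) : S_ENY := by
  intro a b σ T F ha hb hσ hF
  obtain ⟨hC, hW⟩ := h1
  obtain ⟨hk, -, hsum, m, hBd⟩ := hC F hF
  obtain ⟨-, -, hVy, -, -, -⟩ := h3 a b σ m (cy F) ha hb hσ hBd
  set τ := σ / a with hτ
  have hτ0 : 0 < τ := div_pos hσ ha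
  set I : ℕ → ℝ := fun k => ∫ x in (0:ℝ)..1, cy F k x ^ 2 with hI
  have hI0 : ∀ k, 0 ≤ I k := fun k =>
    intervalIntegral.integral_nonneg zero_le_one fun x _ => sq_nonneg _
  have hVy2 : ContinuousOn (fun q : ℝ × ℝ × ℝ => Vy a b σ (cy F) q.1 q.2.1 q.2.2 ^ 2)
      (Ioi 0 ×ˢ Icc 0 1 ×ˢ Icc 0 1) := hVy.pow 2
  -- slices
  have hslice : ∀ t, 0 < t → t ≤ τ →
      ∫⁻ p in sq, ENNReal.ofReal (Vy a b σ (cy F) t p.1 p.2 ^ 2) ≤
      ∑' k, ENNReal.ofReal (lam k * Real.exp (-(lam k) * (b * t)) ^ 2 * I k) := by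
    intro t ht0 ht
    have hat0 : 0 < a * t := mul_pos ha ht0
    have hat : a * t ≤ σ := by
      rw [hτ, le_div_iff₀ ha] at ht
      linarith
    have hcont : ContinuousOn (fun p : ℝ × ℝ => Vy a b σ (cy F) t p.1 p.2 ^ 2)
        (Icc (0:ℝ) 1 ×ˢ Icc (0:ℝ) 1) :=
      hVy2.comp (f := fun p : ℝ × ℝ => (t, p)) (by fun_prop) (fun p hp => ⟨ht0, hp⟩)
    have hmeas : AEMeasurable (fun p : ℝ × ℝ => ENNReal.ofReal (Vy a b σ (cy F) t p.1 p.2 ^ 2))
        ((volume.restrict (Ioo (0:ℝ) 1)).prod (volume.restrict (Ioo (0:ℝ) 1))) := by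
      rw [Measure.prod_restrict, ← Measure.volume_eq_prod]
      apply ENNReal.measurable_ofReal.comp_aemeasurable
      exact ((hcont.mono (prod_mono Ioo_subset_Icc_self
        Ioo_subset_Icc_self)).aestronglyMeasurable
          (measurableSet_Ioo.prod measurableSet_Ioo)).aemeasurable
    have e0 : ∫⁻ p in sq, ENNReal.ofReal (Vy a b σ (cy F) t p.1 p.2 ^ 2) =
        ∫⁻ x in Ioo (0:ℝ) 1, ∫⁻ y in Ioo (0:ℝ) 1,
          ENNReal.ofReal (Vy a b σ (cy F) t x y ^ 2) := by
      rw [Measure.volume_eq_prod, ← Measure.prod_restrict, lintegral_prod _ hmeas]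
    rw [e0]
    have hwc : ∀ k, ContinuousOn (fun x => (w (cy F k) σ (a * t) x *
        (Real.exp (-(lam k) * (b * t)) * kk k)) ^ 2) (Icc 0 1) := fun k =>
      ((w_slice (hk k) hσ hat0).mul continuousOn_const).pow 2
    calc ∫⁻ x in Ioo (0:ℝ) 1, ∫⁻ y in Ioo (0:ℝ) 1, ENNReal.ofReal (Vy a b σ (cy F) t x y ^ 2)
        ≤ ∫⁻ x in Ioo (0:ℝ) 1, ∑' k, ENNReal.ofReal ((w (cy F k) σ (a * t) x *
            (Real.exp (-(lam k) * (b * t)) * kk k)) ^ 2) := by
          refine lintegral_mono fun x => ?_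
          have h := cos_le (fun k => w (cy F k) σ (a * t) x *
            (Real.exp (-(lam k) * (b * t)) * kk k))
          refine le_trans (le_of_eq ?_) h
          refine lintegral_congr fun y => ?_
          have e1 : Vy a b σ (cy F) t x y = ∑' k, w (cy F k) σ (a * t) x *
              (Real.exp (-(lam k) * (b * t)) * kk k) * ec k y := by
            unfold Vy
            refine tsum_congr fun k => ?_
            ring
          rw [e1]
      _ = ∑' k, ∫⁻ x in Ioo (0:ℝ) 1, ENNReal.ofReal ((w (cy F k) σ (a * t) x *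
            (Real.exp (-(lam k) * (b * t)) * kk k)) ^ 2) := by
          rw [lintegral_tsum]
          intro k
          apply ENNReal.measurable_ofReal.comp_aemeasurable
          exact (((hwc k).mono Ioo_subset_Icc_self).aestronglyMeasurable
            measurableSet_Ioo).aemeasurable
      _ ≤ ∑' k, ENNReal.ofReal (lam k * Real.exp (-(lam k) * (b * t)) ^ 2 * I k) := by
          refine ENNReal.tsum_le_tsum fun k => ?_
          rw [← ofReal_integral_eq_lintegral_ofReal
            (((hwc k).integrableOn_compact isCompact_Icc).mono_set Ioo_subset_Icc_self)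
            (Eventually.of_forall fun x => sq_nonneg _), ioo_int]
          apply ENNReal.ofReal_le_ofReal
          have e2 : ∀ x, (w (cy F k) σ (a * t) x *
              (Real.exp (-(lam k) * (b * t)) * kk k)) ^ 2 =
              (lam k * Real.exp (-(lam k) * (b * t)) ^ 2) * w (cy F k) σ (a * t) x ^ 2 := by
            intro x
            simp only [lam]
            ring
          simp_rw [e2]
          rw [intervalIntegral.integral_const_mul]
          have hl := lam_pos k
          exact mul_le_mul_of_nonneg_left (hW (cy F k) σ (a * t) (hk k) hat0 hat)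
            (by positivity)
  -- early times
  have hE : IntegrableOn (fun q : ℝ × ℝ × ℝ => Vy a b σ (cy F) q.1 q.2.1 q.2.2 ^ 2)
      (Ioc 0 τ ×ˢ sq) := by
    have hms : MeasurableSet (Ioc (0:ℝ) τ ×ˢ sq) :=
      measurableSet_Ioc.prod (measurableSet_Ioo.prod measurableSet_Ioo)
    have hmeas := (hVy2.mono (prod_mono Ioc_subset_Ioi_self (prod_mono Ioo_subset_Icc_self
      Ioo_subset_Icc_self))).aestronglyMeasurable (μ := volume) hms
    refine ⟨hmeas, ?_⟩
    rw [hasFiniteIntegral_iff_ofReal (Eventually.of_forall fun q => sq_nonneg _)]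
    have hmeas2 : AEMeasurable (fun q : ℝ × ℝ × ℝ =>
        ENNReal.ofReal (Vy a b σ (cy F) q.1 q.2.1 q.2.2 ^ 2))
        ((volume.restrict (Ioc (0:ℝ) τ)).prod (volume.restrict sq)) := by
      rw [Measure.prod_restrict, ← Measure.volume_eq_prod]
      exact ENNReal.measurable_ofReal.comp_aemeasurable hmeas.aemeasurable
    have e0 : ∫⁻ q in Ioc (0:ℝ) τ ×ˢ (sq : Set (ℝ × ℝ)),
        ENNReal.ofReal (Vy a b σ (cy F) q.1 q.2.1 q.2.2 ^ 2) =
        ∫⁻ t in Ioc (0:ℝ) τ, ∫⁻ p in sq, ENNReal.ofReal (Vy a b σ (cy F) t p.1 p.2 ^ 2) := by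
      have e1 : (volume : Measure (ℝ × ℝ × ℝ)).restrict (Ioc (0:ℝ) τ ×ˢ sq) =
          (volume.restrict (Ioc (0:ℝ) τ)).prod (volume.restrict sq) := by
        rw [Measure.prod_restrict, ← Measure.volume_eq_prod]
      rw [e1, lintegral_prod _ hmeas2]
    rw [e0]
    have s1 : ∫⁻ t in Ioc (0:ℝ) τ, ∫⁻ p in sq, ENNReal.ofReal (Vy a b σ (cy F) t p.1 p.2 ^ 2) ≤
        ∫⁻ t in Ioc (0:ℝ) τ,
          ∑' k, ENNReal.ofReal (lam k * Real.exp (-(lam k) * (b * t)) ^ 2 * I k) :=
      setLIntegral_mono' measurableSet_Ioc fun t ht => hslice t ht.1 ht.2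
    refine s1.trans_lt ?_
    have hcc : ∀ k, Continuous fun t : ℝ =>
        lam k * Real.exp (-(lam k) * (b * t)) ^ 2 * I k := fun k => by fun_prop
    rw [lintegral_tsum (fun k => by
      apply Measurable.aemeasurable
      apply ENNReal.measurable_ofReal.comp
      exact (hcc k).measurable)]
    have s2 : ∀ k, ∫⁻ t in Ioc (0:ℝ) τ, ENNReal.ofReal
        (lam k * Real.exp (-(lam k) * (b * t)) ^ 2 * I k) ≤ ENNReal.ofReal (I k / b) := by
      intro k
      have hl := lam_pos k
      rw [← ofReal_integral_eq_lintegral_ofReal (hcc k).integrableOn_Ioc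
        (Eventually.of_forall fun t => by have := hI0 k; positivity)]
      apply ENNReal.ofReal_le_ofReal
      rw [← intervalIntegral.integral_of_le hτ0.le]
      exact t_int (lam k) b (I k) τ hb (hI0 k) hτ0.le
    refine (ENNReal.tsum_le_tsum s2).trans_lt ?_
    rw [← ENNReal.ofReal_tsum_of_nonneg (fun k => div_nonneg (hI0 k) hb.le) (hsum.div_const b)]
    exact ENNReal.ofReal_lt_top
  -- late times
  have hL : IntegrableOn (fun q : ℝ × ℝ × ℝ => Vy a b σ (cy F) q.1 q.2.1 q.2.2 ^ 2)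
      (Icc τ T ×ˢ Icc (0:ℝ) 1 ×ˢ Icc (0:ℝ) 1) := by
    refine ContinuousOn.integrableOn_compact
      (isCompact_Icc.prod (isCompact_Icc.prod isCompact_Icc)) ?_
    exact hVy2.mono (prod_mono (fun t ht => hτ0.trans_le ht.1) le_rfl)
  refine (hE.union hL).mono_set ?_
  rintro ⟨t, p⟩ ⟨ht, hp⟩
  rcases le_total t τ with h | h
  · exact Or.inl ⟨⟨ht.1, h⟩, hp⟩
  · exact Or.inr ⟨⟨h, ht.2.le⟩, Ioo_subset_Icc_self hp.1, Ioo_subset_Icc_self hp.2⟩

end Pool.Agent.V5helper6.PF
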